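import Pool.Agent.Helper36.RN.Goals

/-!
# Project RFn (MP_c98eff_gt), existence part, packet ENB: the energy argument on `Sⁿ`
-/

set_option autoImplicit false

namespace Pool.Agent.Helper16.RN

open Set Filter Topology Pool.Agent.Helper36.RN

/-! ### differentiation of the square norm -/

theorem hder {n : ℕ} {τ : ℝ} {y y' : ℝ → XS n} (h : CD τ y y') {t : ℝ} (ht : t ∈ Icc 0 τ) :
    HasDerivWithinAt (fun s => ip (y s) (y s)) (2 * ip (y t) (y' t)) (Icc 0 τ) t := by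
  rw [hasDerivWithinAt_iff_isLittleO, Asymptotics.isLittleO_iff]
  intro c hc
  set P : ℝ := ip (y t) (y t) with hP
  set Q : ℝ := ip (y' t) (y' t) with hQ
  have P0 : 0 ≤ P := ip_nonneg _
  have Q0 : 0 ≤ Q := ip_nonneg _
  set δ : ℝ := min 1 (c ^ 2 / (16 * (P + 1))) with hδ
  have δ0 : 0 < δ := lt_min one_pos (by positivity)
  have δ1 : δ ≤ 1 := min_le_left _ _
  have δ2 : δ * (16 * (P + 1)) ≤ c ^ 2 := by
    have h1 : δ ≤ c ^ 2 / (16 * (P + 1)) := min_le_right _ _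
    rwa [le_div_iff₀ (by positivity)] at h1
  obtain ⟨η, η0, hη⟩ := h.der 0 t ht δ δ0
  set ρ : ℝ := min η (c / (4 * (Q + 1))) with hρ
  have ρ0 : 0 < ρ := lt_min η0 (by positivity)
  have hnear : ∀ᶠ s in 𝓝[Icc 0 τ] t, s ∈ Icc 0 τ ∧ |s - t| < ρ := by
    have h1 : ∀ᶠ s in 𝓝 t, |s - t| < ρ := Metric.ball_mem_nhds t ρ0
    exact (eventually_mem_nhdsWithin).and (h1.filter_mono nhdsWithin_le_nhds)
  filter_upwards [hnear] with s hs
  obtain ⟨hs1, hs2⟩ := hs
  have hs3 : |s - t| ≤ η := (hs2.trans_le (min_le_left _ _)).le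
  have hs4 : |s - t| * (4 * (Q + 1)) ≤ c := by
    have h1 : |s - t| ≤ c / (4 * (Q + 1)) := (hs2.trans_le (min_le_right _ _)).le
    rwa [le_div_iff₀ (by positivity)] at h1
  have hr := hη s hs1 hs3
  rw [sn_zero] at hr
  set r : XS n := y s - y t - (s - t) • y' t with hrdef
  have hys : y s = y t + ((s - t) • y' t + r) := by rw [hrdef]; abel
  set w : XS n := (s - t) • y' t + r with hw
  have e1 : ip (y s) (y s) = P + 2 * ip (y t) w + ip w w := by
    rw [hys]
    simp only [map_add, LinearMap.add_apply]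
    rw [ip_comm w (y t)]
    ring
  have e2 : ip (y t) w = (s - t) * ip (y t) (y' t) + ip (y t) r := by
    rw [hw, map_add, map_smul, smul_eq_mul]
  have e3 : ip w w ≤ 2 * ((s - t) ^ 2 * Q + δ * (s - t) ^ 2) := by
    have h1 := sn_add_le 0 ((s - t) • y' t) r
    rw [sn_smul, sn_zero, sn_zero, sn_zero] at h1
    rw [hw]
    linarith
  have e3' : 0 ≤ ip w w := ip_nonneg _
  have e4 : |2 * ip (y t) r| ≤ c / 2 * |s - t| := by
    apply abs_le_of_sq_le_sq _ (by positivity)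
    rw [mul_pow, mul_pow, sq_abs]
    have h1 := cs_ip (y t) r
    have h2 : ip (y t) (y t) * ip r r ≤ P * (δ * (s - t) ^ 2) :=
      mul_le_mul_of_nonneg_left hr P0
    have h3 : 0 ≤ (s - t) ^ 2 := sq_nonneg _
    nlinarith [mul_nonneg P0 δ0.le]
  have e5 : |ip (y s) (y s) - P - (s - t) * (2 * ip (y t) (y' t))| ≤
      |2 * ip (y t) r| + |ip w w| := by
    have h1 : ip (y s) (y s) - P - (s - t) * (2 * ip (y t) (y' t)) = 2 * ip (y t) r + ip w w := by
      rw [e1, e2]; ring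
    rw [h1]
    exact abs_add_le _ _
  have e6 : |ip w w| ≤ c / 2 * |s - t| := by
    rw [abs_of_nonneg e3']
    have h1 : (s - t) ^ 2 = |s - t| * |s - t| := by rw [← sq_abs]; ring
    have h2 : 0 ≤ |s - t| := abs_nonneg _
    rw [h1] at e3
    have h3 : |s - t| * |s - t| * (4 * (Q + 1)) ≤ |s - t| * c := by
      rw [mul_assoc]
      exact mul_le_mul_of_nonneg_left hs4 h2
    nlinarith [mul_nonneg h2 h2, mul_nonneg (mul_nonneg h2 h2) (sub_nonneg.2 δ1)]
  rw [Real.norm_eq_abs, Real.norm_eq_abs, smul_eq_mul]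
  linarith

/-! ### Gronwall -/

theorem gron {τ c : ℝ} (e e' : ℝ → ℝ)
    (he : ∀ t ∈ Icc 0 τ, HasDerivWithinAt e (e' t) (Icc 0 τ) t)
    (hle : ∀ t ∈ Icc 0 τ, e' t ≤ c * e t) (h0 : e 0 ≤ 0) : ∀ t ∈ Icc 0 τ, e t ≤ 0 := by
  have hder : ∀ t ∈ Icc 0 τ, HasDerivWithinAt (fun s => e s * Real.exp (-(c * s)))
      (e' t * Real.exp (-(c * t)) + e t * (Real.exp (-(c * t)) * (-(c * 1)))) (Icc 0 τ) t := by
    intro t ht
    have h1 : HasDerivAt (fun s : ℝ => Real.exp (-(c * s))) (Real.exp (-(c * t)) * (-(c * 1))) t :=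
      (((hasDerivAt_id t).const_mul c).neg).exp
    exact (he t ht).mul h1.hasDerivWithinAt
  have hanti : AntitoneOn (fun s => e s * Real.exp (-(c * s))) (Icc 0 τ) := by
    refine antitoneOn_of_deriv_nonpos (convex_Icc 0 τ)
      (fun t ht => (hder t ht).continuousWithinAt) ?_ ?_
    · rw [interior_Icc]
      exact fun t ht => (((hder t (Ioo_subset_Icc_self ht)).hasDerivAt
        (Icc_mem_nhds ht.1 ht.2)).differentiableAt).differentiableWithinAt
    · rw [interior_Icc]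
      intro t ht
      rw [((hder t (Ioo_subset_Icc_self ht)).hasDerivAt (Icc_mem_nhds ht.1 ht.2)).deriv]
      have h1 := hle t (Ioo_subset_Icc_self ht)
      have h2 := Real.exp_pos (-(c * t))
      nlinarith
  intro t ht
  have h1 := hanti (left_mem_Icc.2 (ht.1.trans ht.2)) ht ht.1
  simp only [mul_zero, neg_zero, Real.exp_zero, mul_one] at h1
  have h2 := Real.exp_pos (-(c * t))
  by_contra hcon
  push Not at hcon
  have := mul_pos hcon h2
  linarith

/-! ### integration by parts for `Ee` -/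

theorem sum_Ld_nu {n : ℕ} (l : Fin (n + 1)) : ∑ j, Ld (j, l) (nu j) = - ((n : ℝ) • nu l) := by
  apply XS_ext
  intro x
  rw [sum_val, neg_val, smul_val]
  have h1 : ∀ j : Fin (n + 1), (Ld (j, l) (nu j)).1 x =
      (if l = j then (nu l).1 x else 0) - (nu l).1 x := by
    intro j
    rw [Ld_eq, Ee_nu, Ee_nu, sub_val, mul_val, mul_val, sub_val, sub_val, mul_val, mul_val]
    rw [if_pos rfl, one_val]
    by_cases h : l = j
    · rw [if_pos h, if_pos h, one_val, h]; ring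
    · rw [if_neg h, if_neg h, zero_val]; ring
  rw [Finset.sum_congr rfl fun j _ => h1 j, Finset.sum_sub_distrib, Finset.sum_const,
    Finset.card_univ, Fintype.card_fin, nsmul_eq_mul]
  simp only [Finset.sum_ite_eq, Finset.mem_univ, if_true]
  push_cast
  ring

theorem ibpE {n : ℕ} (l : Fin (n + 1)) (u v : XS n) :
    ip u (Ee l v) = ip ((n : ℝ) • (u * nu l) - Ee l u) v := by
  have h1 : ip u (Ee l v) = - ip (∑ j, Ld (j, l) (u * nu j)) v := by
    rw [Ee_def, map_sum, map_sum, LinearMap.sum_apply, ← Finset.sum_neg_distrib]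
    refine Finset.sum_congr rfl fun j _ => ?_
    rw [← ip_mul_left, ibp, neg_neg]
  have h2 : ∑ j, Ld (j, l) (u * nu j) = - ((n : ℝ) • (u * nu l) - Ee l u) := by
    have h3 : ∀ j : Fin (n + 1), Ld (j, l) (u * nu j) =
        u * Ld (j, l) (nu j) + nu j * Ld (j, l) u := by
      intro j
      rw [Derivation.leibniz, smul_eq_mul, smul_eq_mul]
    have h4 : u * - ((n : ℝ) • nu l) = - ((n : ℝ) • (u * nu l)) := XS_ext fun x => by
      rw [mul_val, neg_val, smul_val, neg_val, smul_val, mul_val]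
      ring
    rw [Finset.sum_congr rfl fun j _ => h3 j, Finset.sum_add_distrib, ← Finset.mul_sum,
      sum_Ld_nu, ← Ee_def, h4]
    abel
  rw [h1, h2, map_neg, LinearMap.neg_apply, neg_neg]

theorem ibpA {n : ℕ} (l : Fin (n + 1)) (a u v : XS n) :
    ip u (a * Ee l v) = ip (u * ((n : ℝ) • (a * nu l) - Ee l a)) v - ip (a * Ee l u) v := by
  rw [← ip_mul_left, ibpE, Derivation.leibniz, smul_eq_mul, smul_eq_mul]
  have h : (n : ℝ) • (u * a * nu l) - (u * Ee l a + a * Ee l u)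
      = u * ((n : ℝ) • (a * nu l) - Ee l a) - a * Ee l u := by
    rw [mul_sub, mul_smul_comm, mul_assoc]
    abel
  rw [h, map_sub, LinearMap.sub_apply]

/-- integrals of pointwise ordered functions -/
theorem int_mono {n : ℕ} {f g : XS n} (h : ∀ x, f.1 x ≤ g.1 x) : ip 1 f ≤ ip 1 g :=
  ip_mono fun x => by rw [one_val, one_mul, one_mul]; exact h x

theorem ip_one_mul {n : ℕ} (u v : XS n) : ip u v = ip 1 (u * v) := by
  rw [← ip_mul_left, one_mul]

/-! ### the pointwise inequality -/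

theorem real_ineq {ν μ : Type} [Fintype ν] [Fintype μ] {κ K : ℝ} (hκ : 0 < κ) (hK : 0 ≤ K)
    (N : ν → ℝ) (X : μ → ℝ) (M : μ → ν → ℝ) (c : ν → ν → ℝ) (bM : ∀ j i, |M j i| ≤ K)
    (bc : ∀ i j, |c i j| ≤ K) :
    - κ * (∑ j, X j * X j) + (∑ j, ∑ i, (N i * M j i) * X j) + (∑ i, ∑ j, N i * (c i j * N j))
      ≤ ((Fintype.card μ) * ((Fintype.card ν) * K ^ 2 / (4 * κ)) + K * (Fintype.card ν)) *
        ∑ i, N i * N i := by
  have h1 : ∀ j, - κ * (X j * X j) + ∑ i, (N i * M j i) * X j ≤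
      (Fintype.card ν) * K ^ 2 / (4 * κ) * ∑ i, N i * N i := by
    intro j
    set s : ℝ := ∑ i, N i * M j i with hs
    have a1 : ∑ i, (N i * M j i) * X j = s * X j := by rw [hs, Finset.sum_mul]
    rw [a1]
    have a2 : s ^ 2 ≤ (∑ i, N i ^ 2) * (∑ i, M j i ^ 2) :=
      Finset.sum_mul_sq_le_sq_mul_sq _ _ _
    have a3 : ∑ i, M j i ^ 2 ≤ (Fintype.card ν) * K ^ 2 := by
      calc ∑ i, M j i ^ 2 ≤ ∑ _i : ν, K ^ 2 := Finset.sum_le_sum fun i _ => by
            rw [← sq_abs]; exact pow_le_pow_left₀ (abs_nonneg _) (bM j i) 2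
        _ = (Fintype.card ν) * K ^ 2 := by rw [Finset.sum_const, Finset.card_univ, nsmul_eq_mul]
    have a4 : 0 ≤ ∑ i, N i ^ 2 := Finset.sum_nonneg fun _ _ => sq_nonneg _
    have a5 : s ^ 2 ≤ (∑ i, N i ^ 2) * ((Fintype.card ν) * K ^ 2) :=
      a2.trans (mul_le_mul_of_nonneg_left a3 a4)
    have a6 : - κ * (X j * X j) + s * X j ≤ s ^ 2 / (4 * κ) := by
      have h4 : 0 ≤ (2 * κ * X j - s) ^ 2 / (4 * κ) := by positivity
      have h5 : (2 * κ * X j - s) ^ 2 / (4 * κ) = s ^ 2 / (4 * κ) + κ * (X j * X j) - s * X j := by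
        field_simp
        ring
      rw [h5] at h4
      linarith
    refine a6.trans ?_
    rw [div_mul_eq_mul_div]
    apply div_le_div_of_nonneg_right _ (by positivity)
    have a7 : ∑ i, N i * N i = ∑ i, N i ^ 2 := Finset.sum_congr rfl fun i _ => (pow_two _).symm
    rw [a7]
    linarith
  have h2 : - κ * (∑ j, X j * X j) + (∑ j, ∑ i, (N i * M j i) * X j) ≤
      (Fintype.card μ) * ((Fintype.card ν) * K ^ 2 / (4 * κ)) * ∑ i, N i * N i := by
    rw [Finset.mul_sum, ← Finset.sum_add_distrib]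
    refine (Finset.sum_le_sum fun j _ => h1 j).trans_eq ?_
    rw [Finset.sum_const, Finset.card_univ, nsmul_eq_mul]
    ring
  have h3 : (∑ i, ∑ j, N i * (c i j * N j)) ≤ K * (Fintype.card ν) * ∑ i, N i * N i := by
    have b1 : (∑ i, ∑ j, N i * (c i j * N j)) ≤ ∑ i, ∑ j, |N i| * (K * |N j|) := by
      refine Finset.sum_le_sum fun i _ => Finset.sum_le_sum fun j _ => ?_
      refine (le_abs_self _).trans ?_
      rw [abs_mul, abs_mul]
      exact mul_le_mul_of_nonneg_left (mul_le_mul_of_nonneg_right (bc i j) (abs_nonneg _))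
        (abs_nonneg _)
    have b2 : ∑ i, ∑ j, |N i| * (K * |N j|) = K * (∑ i, |N i|) ^ 2 := by
      rw [pow_two, Finset.sum_mul_sum, Finset.mul_sum]
      refine Finset.sum_congr rfl fun i _ => ?_
      rw [Finset.mul_sum]
      exact Finset.sum_congr rfl fun j _ => by ring
    have b3 : (∑ i, |N i|) ^ 2 ≤ (Fintype.card ν : ℝ) * ∑ i, |N i| ^ 2 := by
      have := sq_sum_le_card_mul_sum_sq (s := (Finset.univ : Finset ν)) (f := fun i => |N i|)
      rwa [Finset.card_univ] at this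
    have b4 : ∑ i, |N i| ^ 2 = ∑ i, N i * N i :=
      Finset.sum_congr rfl fun i _ => by rw [sq_abs, pow_two]
    rw [b4] at b3
    rw [b2] at b1
    refine b1.trans ((mul_le_mul_of_nonneg_left b3 hK).trans_eq ?_)
    ring
  rw [add_mul]
  linarith

/-- the lower order coefficient -/
noncomputable def MM {n : ℕ} {ν μ : Type} (κ : ℝ) (k : μ → Fin (n + 1) → ν → ℝ)
    (A : Fin (n + 1) → Fin (n + 1) → ℝ → XS n) (c1 : ν → μ → ℝ → XS n) (c3 : μ → ν → ℝ → XS n)
    (j : μ) (i : ν) (t : ℝ) : XS n :=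
  κ • (c3 j i t + ∑ a, k j a i • ∑ l, ((n : ℝ) • (A a l t * nu l) - Ee l (A a l t))) + c1 i j t

/-- the energy identity -/
theorem energy {n : ℕ} {ν μ : Type} [Fintype ν] [Fintype μ] {κ : ℝ} {t : ℝ}
    (k : μ → Fin (n + 1) → ν → ℝ) (N N' : ν → ℝ → XS n) (X : μ → ℝ → XS n)
    (A : Fin (n + 1) → Fin (n + 1) → ℝ → XS n)
    (c1 : ν → μ → ℝ → XS n) (c2 : ν → ν → ℝ → XS n) (c3 : μ → ν → ℝ → XS n)
    (hN : ∀ i, N' i t = κ • ∑ j, ∑ a, k j a i • ∑ l, A a l t * Ee l (X j t)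
      + ∑ j, c1 i j t * X j t + ∑ j, c2 i j t * N j t)
    (hX : ∀ j, X j t = ∑ i, ∑ a, k j a i • ∑ l, A a l t * Ee l (N i t)
      + ∑ i, c3 j i t * N i t) :
    ∑ i, ip (N i t) (N' i t) = - κ * (∑ j, ip (X j t) (X j t))
      + (∑ j, ∑ i, ip (N i t * MM κ k A c1 c3 j i t) (X j t))
      + (∑ i, ∑ j, ip (N i t) (c2 i j t * N j t)) := by
  obtain ⟨q, hq⟩ : ∃ q : Fin (n + 1) → ν → μ → ℝ, ∀ a i j, q a i j = k j a i * ∑ l,
      ip (N i t * ((n : ℝ) • (A a l t * nu l) - Ee l (A a l t))) (X j t) := ⟨_, fun _ _ _ => rfl⟩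
  obtain ⟨p, hp⟩ : ∃ p : Fin (n + 1) → ν → μ → ℝ, ∀ a i j, p a i j = k j a i * ∑ l,
      ip (A a l t * Ee l (N i t)) (X j t) := ⟨_, fun _ _ _ => rfl⟩
  obtain ⟨d1, hd1⟩ : ∃ d1 : ν → μ → ℝ, ∀ i j, d1 i j = ip (N i t * c1 i j t) (X j t) :=
    ⟨_, fun _ _ => rfl⟩
  obtain ⟨d3, hd3⟩ : ∃ d3 : ν → μ → ℝ, ∀ i j, d3 i j = ip (c3 j i t * N i t) (X j t) :=
    ⟨_, fun _ _ => rfl⟩
  have h1 : ∀ i, ip (N i t) (N' i t) = κ * (∑ j, ∑ a, (q a i j - p a i j))
      + ∑ j, d1 i j + ∑ j, ip (N i t) (c2 i j t * N j t) := by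
    intro i
    rw [hN i]
    simp only [hq, hp, hd1, ← mul_sub, ← Finset.sum_sub_distrib]
    simp only [map_add, map_smul, map_sum, smul_eq_mul, ibpA, ip_mul_left]
  have h2 : ∀ j, ip (X j t) (X j t) = (∑ i, ∑ a, p a i j) + ∑ i, d3 i j := by
    intro j
    have e : ip (X j t) (X j t) = ip (∑ i, ∑ a, k j a i • ∑ l, A a l t * Ee l (N i t)
      + ∑ i, c3 j i t * N i t) (X j t) := by rw [← hX j]
    rw [e]
    simp only [hp, hd3, map_add, map_smul, map_sum, smul_eq_mul, LinearMap.add_apply,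
      LinearMap.smul_apply, LinearMap.sum_apply]
  have h3 : ∀ j i, ip (N i t * MM κ k A c1 c3 j i t) (X j t) =
      κ * (d3 i j + ∑ a, q a i j) + d1 i j := by
    intro j i
    rw [MM]
    have e : N i t * (κ • (c3 j i t + ∑ a, k j a i • ∑ l, ((n : ℝ) • (A a l t * nu l)
        - Ee l (A a l t))) + c1 i j t) = κ • (c3 j i t * N i t + ∑ a, k j a i • ∑ l, N i t *
        ((n : ℝ) • (A a l t * nu l) - Ee l (A a l t))) + N i t * c1 i j t := by
      simp only [mul_add, mul_smul_comm, Finset.mul_sum]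
      rw [mul_comm (N i t) (c3 j i t)]
    rw [e]
    simp only [hq, hd1, hd3, map_add, map_smul, map_sum, smul_eq_mul,
      LinearMap.add_apply, LinearMap.smul_apply, LinearMap.sum_apply]
  rw [Finset.sum_congr rfl fun i _ => h1 i, Finset.sum_congr rfl fun j _ => h2 j,
    Finset.sum_congr rfl fun j _ => Finset.sum_congr rfl fun i _ => h3 j i]
  simp only [Finset.sum_add_distrib, Finset.sum_sub_distrib, mul_sub, mul_add, ← Finset.mul_sum]
  rw [Finset.sum_comm (f := fun i j => ∑ a, q a i j),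
    Finset.sum_comm (f := fun i j => ∑ a, p a i j),
    Finset.sum_comm (f := fun i j => d1 i j)]
  ring

/-- PACKET ENB -/
theorem enb : G_ENB := by
  intro hR n ν μ _ _ τ κ k N N' X A c1 c2 c3 hκ hN hX hA hc1 hc2 hc3 heN heX h0
  obtain ⟨-, -, -, -, -, -, -, -, -, -, -, -, cconst, cadd, csub, cmul, -, csmul, -, cEe, csum,
    -, -, cK⟩ := hR n τ
  have hM : ∀ j i, CC τ (MM κ k A c1 c3 j i) := by
    intro j i
    refine cadd _ _ (csmul κ _ (cadd _ _ (hc3 j i) (csum _ _ _ fun a _ => csmul _ _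
      (csum _ _ _ fun l _ => csub _ _ (csmul _ _ (cmul _ _ (hA a l) (cconst _)))
        (cEe _ _ (hA a l)))))) (hc1 i j)
  choose K1 hK1 using fun j i => cK _ (hM j i)
  choose K2 hK2 using fun i j => cK _ (hc2 i j)
  obtain ⟨K, hK0, hKM, hKc⟩ : ∃ K : ℝ, 0 ≤ K ∧ (∀ j i, K1 j i ≤ K) ∧ (∀ i j, K2 i j ≤ K) := by
    refine ⟨∑ j, ∑ i, |K1 j i| + ∑ i, ∑ j, |K2 i j|, by positivity, fun j i => ?_, fun i j => ?_⟩
    · have h1 : |K1 j i| ≤ ∑ i, |K1 j i| :=
        Finset.single_le_sum (f := fun i => |K1 j i|) (fun _ _ => abs_nonneg _) (Finset.mem_univ i)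
      have h2 : ∑ i, |K1 j i| ≤ ∑ j, ∑ i, |K1 j i| :=
        Finset.single_le_sum (f := fun j => ∑ i, |K1 j i|)
          (fun _ _ => Finset.sum_nonneg fun _ _ => abs_nonneg _) (Finset.mem_univ j)
      have h3 : 0 ≤ ∑ i, ∑ j, |K2 i j| :=
        Finset.sum_nonneg fun _ _ => Finset.sum_nonneg fun _ _ => abs_nonneg _
      linarith [le_abs_self (K1 j i)]
    · have h1 : |K2 i j| ≤ ∑ j, |K2 i j| :=
        Finset.single_le_sum (f := fun j => |K2 i j|) (fun _ _ => abs_nonneg _) (Finset.mem_univ j)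
      have h2 : ∑ j, |K2 i j| ≤ ∑ i, ∑ j, |K2 i j| :=
        Finset.single_le_sum (f := fun i => ∑ j, |K2 i j|)
          (fun _ _ => Finset.sum_nonneg fun _ _ => abs_nonneg _) (Finset.mem_univ i)
      have h3 : 0 ≤ ∑ j, ∑ i, |K1 j i| :=
        Finset.sum_nonneg fun _ _ => Finset.sum_nonneg fun _ _ => abs_nonneg _
      linarith [le_abs_self (K2 i j)]
  set C : ℝ := (Fintype.card μ) * ((Fintype.card ν) * K ^ 2 / (4 * κ)) + K * (Fintype.card ν)
    with hC
  -- the energy inequality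
  have hen : ∀ t ∈ Icc 0 τ, ∑ i, ip (N i t) (N' i t) ≤ C * ∑ i, ip (N i t) (N i t) := by
    intro t ht
    rw [energy k N N' X A c1 c2 c3 (heN t ht) (heX t ht)]
    have e1 : - κ * (∑ j, ip (X j t) (X j t))
        + (∑ j, ∑ i, ip (N i t * MM κ k A c1 c3 j i t) (X j t))
        + (∑ i, ∑ j, ip (N i t) (c2 i j t * N j t)) =
        ip 1 ((- κ) • (∑ j, X j t * X j t)
          + (∑ j, ∑ i, (N i t * MM κ k A c1 c3 j i t) * X j t)
          + (∑ i, ∑ j, N i t * (c2 i j t * N j t))) := by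
      simp only [map_add, map_smul, map_sum, smul_eq_mul, ← ip_one_mul]
    have e2 : C * ∑ i, ip (N i t) (N i t) = ip 1 (C • ∑ i, N i t * N i t) := by
      simp only [map_smul, map_sum, smul_eq_mul, ← ip_one_mul]
    rw [e1, e2]
    refine int_mono fun x => ?_
    have h := real_ineq hκ hK0 (fun i => (N i t).1 x) (fun j => (X j t).1 x)
      (fun j i => (MM κ k A c1 c3 j i t).1 x) (fun i j => (c2 i j t).1 x)
      (fun j i => (hK1 j i t ht x).trans (hKM j i)) (fun i j => (hK2 i j t ht x).trans (hKc i j))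
    simp only [add_val, smul_val, sum_val, mul_val]
    exact h
  have hfin := gron (τ := τ) (c := 2 * C) (fun t => ∑ i, ip (N i t) (N i t))
    (fun t => ∑ i, 2 * ip (N i t) (N' i t))
    (fun t ht => HasDerivWithinAt.fun_sum fun i _ => hder (hN i) ht)
    (fun t ht => by
      have h := hen t ht
      simp only [← Finset.mul_sum]
      linarith)
    (by
      simp only [h0, map_zero, Finset.sum_const_zero, le_refl])
  intro t ht i
  have h1 := hfin t ht
  have h2 : ∑ i, ip (N i t) (N i t) = 0 := le_antisymm h1 (Finset.sum_nonneg fun _ _ => ip_nonneg _)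
  exact eq_zero_of_ip ((Finset.sum_eq_zero_iff_of_nonneg fun i _ => ip_nonneg _).1 h2 i
    (Finset.mem_univ i))

end Pool.Agent.Helper16.RN
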